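import Pool.Agent.Lib.MP_9736fa_co.Main

/-!
# Bi-shortest paths exist

Positive answer to the bi-shortest path conjecture: in every two-person shortest path game some
directed `(s, t)`-path belongs to both families `𝒫₁` and `𝒫₂`.
-/

namespace Pool.Agent.Results.MP_9736fa_co.BiShortest

open Pool.Agent.Lib.MP_9736fa_co

/-- Every two-person shortest path game on a finite directed graph has a bi-shortest path. -/
theorem result : ∀ (V E : Type*) [Finite V] [Finite E] (G : SPGame V E),
    G.biShortestPaths.Nonempty :=
  fun _ _ _ _ G => biShortest G

end Pool.Agent.Results.MP_9736fa_co.BiShortest
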